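import Pool.Agent.Helper99.KW.OP
import Pool.Agent.Helper42.KW.RO
import Pool.Agent.Helper52.KW.EC
import Pool.Agent.Helper67.KW.MN1

/-!
# Piece EX: exactness of the reduced algebra gives `ExPrime`
-/

open CategoryTheory Topology
open scoped ENNReal

namespace Pool.Agent.KW

universe u v

namespace EX

/-! ### Scalar facts -/

theorem exists_poly (R : ℝ) (hR : 0 ≤ R) (φ : ℝ → ℝ) (hφ : Continuous φ) (h0 : φ 0 = 0) (ε : ℝ)
    (hε : 0 < ε) :
    ∃ p : Polynomial ℝ, p.coeff 0 = 0 ∧ ∀ x ∈ Set.Icc 0 R, |φ x - p.eval x| ≤ ε := by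
  obtain ⟨q, hq⟩ := exists_polynomial_near_of_continuousOn 0 R φ hφ.continuousOn (ε / 2)
    (by positivity)
  refine ⟨q - Polynomial.C (q.eval 0), ?_, ?_⟩
  · simp [Polynomial.coeff_zero_eq_eval_zero]
  · intro x hx
    have h1 := hq x hx
    have h2 := hq 0 ⟨le_rfl, hR⟩
    rw [h0] at h2
    simp only [Polynomial.eval_sub, Polynomial.eval_C]
    rw [abs_lt] at h1 h2
    rw [abs_le]
    constructor <;> linarith only [h1, h2, h1.1, h1.2, h2.1, h2.2]

section CFC

variable {A : Type*} [CStarAlgebra A]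

theorem cfc_sub_aeval_le (T : A) (hT : IsSelfAdjoint T) (φ : ℝ → ℝ) (hφ : Continuous φ)
    (p : Polynomial ℝ) (ε : ℝ) (hε : 0 ≤ ε) (K : Set ℝ) (hK : spectrum ℝ T ⊆ K)
    (h : ∀ x ∈ K, |φ x - p.eval x| ≤ ε) : ‖cfc φ T - Polynomial.aeval T p‖ ≤ ε := by
  rw [← cfc_polynomial p T hT, ← cfc_sub _ _ T (hφ.continuousOn) (p.continuous.continuousOn)]
  refine norm_cfc_le hε fun x hx => ?_
  exact h x (hK hx)

theorem aeval_le (T : A) (hT : IsSelfAdjoint T)
    (p : Polynomial ℝ) (ε : ℝ) (hε : 0 ≤ ε) (K : Set ℝ) (hK : spectrum ℝ T ⊆ K)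
    (h : ∀ x ∈ K, |p.eval x| ≤ ε) : ‖Polynomial.aeval T p‖ ≤ ε := by
  rw [← cfc_polynomial p T hT]
  refine norm_cfc_le hε fun x hx => ?_
  exact h x (hK hx)

end CFC

section Op
variable {S : Type*} {H : Type*} [NormedAddCommGroup H] [InnerProductSpace ℂ H] [CompleteSpace H]

theorem spec_subset (X : L2H S H →L[ℂ] L2H S H) (R : ℝ) (h : ‖X‖ ^ 2 ≤ R) :
    spectrum ℝ (star X * X) ⊆ Set.Icc 0 R := by
  intro x hx
  refine ⟨spectrum_star_mul_self_nonneg x hx, ?_⟩
  have h1 := spectrum.norm_le_norm_mul_of_mem hx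
  have h0 : ‖star X * X‖ = ‖X‖ * ‖X‖ := CStarRing.norm_star_mul_self
  rw [h0] at h1
  have h2 : ‖(1 : L2H S H →L[ℂ] L2H S H)‖ ≤ 1 := ContinuousLinearMap.norm_id_le
  have h3 : x ≤ ‖x‖ := Real.le_norm_self x
  have h4 : ‖X‖ * ‖X‖ * ‖(1 : L2H S H →L[ℂ] L2H S H)‖ ≤ ‖X‖ * ‖X‖ * 1 :=
    mul_le_mul_of_nonneg_left h2 (by positivity)
  linarith only [h, h1, h3, h4]

theorem norm_blk_le (T : L2H S H →L[ℂ] L2H S H) (s t : S) : ‖blk T s t‖ ≤ ‖T‖ := by
  refine ContinuousLinearMap.opNorm_le_bound _ (norm_nonneg _) fun v => ?_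
  classical
  rw [blk_apply]
  have h1 : ‖(T (lp.single 2 t v)) s‖ ≤ ‖T (lp.single 2 t v)‖ :=
    lp.norm_apply_le_norm (by norm_num) _ _
  refine h1.trans ((T.le_opNorm _).trans ?_)
  rw [lp.norm_single (E := fun _ : S => H) (p := 2) (by norm_num) t v]

omit [CompleteSpace H] in
theorem blk_one_eq (s t : S) (v : H) : blk (1 : L2H S H →L[ℂ] L2H S H) s t v =
    open Classical in if s = t then v else 0 := by
  classical
  rw [blk_apply]
  simp only [one_apply_eq_self]
  by_cases h : s = t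
  · subst h; simp
  · rw [lp.single_apply_ne]
    · simp [h]
    · exact h

theorem blk_real_smul (c : ℝ) (T : L2H S H →L[ℂ] L2H S H) (s t : S) :
    blk (c • T) s t = c • blk T s t := by
  have h1 : (c • T : L2H S H →L[ℂ] L2H S H) = (c : ℂ) • T := (Complex.coe_smul c T).symm
  have h2 : (c • blk T s t : H →L[ℂ] H) = (c : ℂ) • blk T s t := (Complex.coe_smul c _).symm
  rw [h1, h2]
  exact blk_smul (c : ℂ) T s t

theorem blk_aeval (T : L2H S H →L[ℂ] L2H S H) (p : Polynomial ℝ) (s t : S) :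
    blk (Polynomial.aeval T p) s t = ∑ k ∈ Finset.range (p.natDegree + 1),
      p.coeff k • blk (T ^ k) s t := by
  rw [Polynomial.aeval_eq_sum_range, blk_sum]
  exact Finset.sum_congr rfl fun k _ => blk_real_smul _ _ _ _

end Op

section Local
variable {S : Type*} {H : Type*} [NormedAddCommGroup H] [InnerProductSpace ℂ H] [CompleteSpace H]

/-- propagation of column supports and equality of columns under one multiplication -/
theorem step (X Z A B : L2H S H →L[ℂ] L2H S H) (t : S) (N N' : Finset S)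
    (hX : ∀ u ∈ N, ∀ s ∉ N', blk X s u = 0)
    (hXZ : ∀ u ∈ N, ∀ s, blk Z s u = blk X s u)
    (hA : ∀ s ∉ N, blk A s t = 0) (hAB : ∀ s, blk B s t = blk A s t) :
    (∀ s ∉ N', blk (X * A) s t = 0) ∧ ∀ s, blk (Z * B) s t = blk (X * A) s t := by
  have hB : ∀ s ∉ N, blk B s t = 0 := fun s hs => by rw [hAB, hA s hs]
  constructor
  · intro s hs
    rw [blk_mul X A s t N hA]
    refine Finset.sum_eq_zero fun u hu => ?_
    rw [hX u hu s hs, zero_mul]
  · intro s
    rw [blk_mul X A s t N hA, blk_mul Z B s t N hB]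
    refine Finset.sum_congr rfl fun u hu => ?_
    rw [hXZ u hu s, hAB]

theorem step_pow (X Z : L2H S H →L[ℂ] L2H S H) (t : S) (N : ℕ → Finset S) (m : ℕ)
    (ht : t ∈ N 0)
    (hX : ∀ k, ∀ u ∈ N k, ∀ s ∉ N (k + 1), blk X s u = 0)
    (hX' : ∀ k, ∀ u ∈ N k, ∀ s ∉ N (k + 1), blk (star X) s u = 0)
    (hXZ : ∀ k < 2 * m, ∀ u ∈ N k, ∀ s, blk Z s u = blk X s u)
    (hXZ' : ∀ k < 2 * m, ∀ u ∈ N k, ∀ s, blk (star Z) s u = blk (star X) s u) :
    ∀ k ≤ m, (∀ s ∉ N (2 * k), blk ((star X * X) ^ k) s t = 0) ∧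
      ∀ s, blk ((star Z * Z) ^ k) s t = blk ((star X * X) ^ k) s t := by
  intro k
  induction k with
  | zero =>
    intro _
    refine ⟨fun s hs => ?_, fun s => by simp⟩
    ext v
    rw [pow_zero, blk_one_eq]
    have : s ≠ t := fun h => hs (h ▸ ht)
    simp [this]
  | succ k ih =>
    intro hk
    obtain ⟨h1, h2⟩ := ih (by omega)
    have e1 := step X Z ((star X * X) ^ k) ((star Z * Z) ^ k) t (N (2 * k)) (N (2 * k + 1))
      (hX _) (hXZ _ (by omega)) h1 h2
    have e2 := step (star X) (star Z) (X * (star X * X) ^ k) (Z * (star Z * Z) ^ k) t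
      (N (2 * k + 1)) (N (2 * k + 2))
      (hX' _) (hXZ' _ (by omega)) e1.1 e1.2
    rw [pow_succ', pow_succ', mul_assoc, mul_assoc]
    exact e2

/-- the local estimate -/
theorem norm_blk_aeval_le (X Z : L2H S H →L[ℂ] L2H S H) (t : S) (N : ℕ → Finset S)
    (p : Polynomial ℝ) (ht : t ∈ N 0)
    (hX : ∀ k, ∀ u ∈ N k, ∀ s ∉ N (k + 1), blk X s u = 0)
    (hX' : ∀ k, ∀ u ∈ N k, ∀ s ∉ N (k + 1), blk (star X) s u = 0)
    (hXZ : ∀ k < 2 * p.natDegree, ∀ u ∈ N k, ∀ s, blk Z s u = blk X s u)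
    (hXZ' : ∀ k < 2 * p.natDegree, ∀ u ∈ N k, ∀ s, blk (star Z) s u = blk (star X) s u)
    (ρ : ℝ) (hZ : ‖Z‖ ≤ ρ) (ε : ℝ) (hε : 0 ≤ ε)
    (hp : ∀ x ∈ Set.Icc 0 (ρ ^ 2), |p.eval x| ≤ ε) (s : S) :
    ‖blk (Polynomial.aeval (star X * X) p) s t‖ ≤ ε := by
  have h := step_pow X Z t N p.natDegree ht hX hX' hXZ hXZ'
  have e : blk (Polynomial.aeval (star X * X) p) s t
      = blk (Polynomial.aeval (star Z * Z) p) s t := by
    rw [blk_aeval, blk_aeval]
    refine Finset.sum_congr rfl fun k hk => ?_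
    rw [(h k (by rw [Finset.mem_range] at hk; omega)).2 s]
  rw [e]
  refine (norm_blk_le _ s t).trans ?_
  exact aeval_le (star Z * Z) (IsSelfAdjoint.star_mul_self Z) p ε hε _
    (spec_subset Z (ρ ^ 2) (by have := norm_nonneg Z; gcongr)) hp

end Local

section TensSec
variable {S : Type u} {J : Type v} {H : J → Type u} [∀ W, NormedAddCommGroup (H W)]
  [∀ W, InnerProductSpace ℂ (H W)] [∀ W, CompleteSpace (H W)]

/-- families of operators of the form `W ↦ ∑ i, d i ⊗ b i W` -/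
def Tens (D : NonUnitalStarSubalgebra ℂ (L2 S →L[ℂ] L2 S))
    (T : ∀ W, L2H S (H W) →L[ℂ] L2H S (H W)) : Prop :=
  ∃ (ι : Type) (_ : Fintype ι) (d : ι → (L2 S →L[ℂ] L2 S)) (b : ι → ∀ W, H W →L[ℂ] H W) (C : ℝ),
    0 ≤ C ∧ (∀ i, d i ∈ D) ∧ (∀ i t, {s | coef (d i) s t ≠ 0}.Finite) ∧
    (∀ i W, ‖b i W‖ ≤ C) ∧ ∀ W s t, blk (T W) s t = ∑ i, coef (d i) s t • b i W

variable {D : NonUnitalStarSubalgebra ℂ (L2 S →L[ℂ] L2 S)}

theorem coef_eq (T : L2 S →L[ℂ] L2 S) (s t : S) : coef T s t = blk (H := ℂ) T s t 1 := by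
  rw [blk_eq_coef]; simp

theorem coef_mul (d d' : L2 S →L[ℂ] L2 S) (s u : S) (Q : Finset S)
    (hQ : ∀ t ∉ Q, coef d' t u = 0) :
    coef (d * d') s u = ∑ t ∈ Q, coef d s t * coef d' t u := by
  have h := blk_mul (H := ℂ) d d' s u Q (fun t ht => by
    rw [blk_eq_coef, hQ t ht]; exact zero_smul ℂ _)
  rw [coef_eq (d * d'), h]
  simp [blk_eq_coef, mul_comm]

theorem coef_star (d : L2 S →L[ℂ] L2 S) (s t : S) : coef (star d) s t = star (coef d t s) := by
  have h := blk_star (H := ℂ) d s t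
  rw [coef_eq, h, blk_eq_coef, star_smul, star_one]
  simp

theorem coef_mul_finite (d d' : L2 S →L[ℂ] L2 S) (hd : ∀ t, {s | coef d s t ≠ 0}.Finite)
    (hd' : ∀ t, {s | coef d' s t ≠ 0}.Finite) (u : S) : {s | coef (d * d') s u ≠ 0}.Finite := by
  classical
  refine ((hd' u).biUnion fun t _ => hd t).subset ?_
  intro s hs
  rw [Set.mem_ofPred_eq, coef_mul d d' s u (hd' u).toFinset (fun t ht => by simpa using ht)] at hs
  obtain ⟨t, ht, hne⟩ := Finset.exists_ne_zero_of_sum_ne_zero hs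
  simp only [Set.mem_iUnion, Set.mem_ofPred_eq]
  exact ⟨t, by simpa using ht, left_ne_zero_of_mul hne⟩

omit [∀ W, CompleteSpace (H W)] in
theorem Tens.zero : Tens D (fun W : J => (0 : L2H S (H W) →L[ℂ] L2H S (H W))) := by
  refine ⟨Fin 0, inferInstance, fun i => i.elim0, fun i => i.elim0, 0, le_rfl, fun i => i.elim0,
    fun i => i.elim0, fun i => i.elim0, fun W s t => ?_⟩
  simp only [Finset.univ_eq_empty, Finset.sum_empty]
  ext v
  rw [blk_apply]; rfl

theorem Tens.add {T T' : ∀ W : J, L2H S (H W) →L[ℂ] L2H S (H W)} (h : Tens D T)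
    (h' : Tens D T') : Tens D (fun W => T W + T' W) := by
  obtain ⟨ι, _, d, b, C, hC, hd, hf, hb, hT⟩ := h
  obtain ⟨ι', _, d', b', C', hC', hd', hf', hb', hT'⟩ := h'
  refine ⟨ι ⊕ ι', inferInstance, Sum.elim d d', Sum.elim b b', max C C', le_max_of_le_left hC,
    ?_, ?_, ?_, ?_⟩
  · rintro (i | i) <;> simp [hd, hd']
  · rintro (i | i)
    · exact hf i
    · exact hf' i
  · rintro (i | i) W
    · exact (hb i W).trans (le_max_left _ _)
    · exact (hb' i W).trans (le_max_right _ _)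
  · intro W s t
    rw [blk_add, hT, hT']
    simp

theorem Tens.smul (c : ℂ) {T : ∀ W : J, L2H S (H W) →L[ℂ] L2H S (H W)} (h : Tens D T) :
    Tens D (fun W => c • T W) := by
  obtain ⟨ι, _, d, b, C, hC, hd, hf, hb, hT⟩ := h
  refine ⟨ι, inferInstance, d, fun i W => c • b i W, ‖c‖ * C, by positivity, hd, hf, ?_, ?_⟩
  · intro i W
    rw [norm_smul]
    exact mul_le_mul_of_nonneg_left (hb i W) (norm_nonneg _)
  · intro W s t
    rw [blk_smul, hT, Finset.smul_sum]
    exact Finset.sum_congr rfl fun i _ => smul_comm _ _ _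

theorem Tens.sum {κ : Type*} (I : Finset κ) (T : κ → ∀ W : J, L2H S (H W) →L[ℂ] L2H S (H W))
    (h : ∀ k ∈ I, Tens D (T k)) : Tens D (fun W => ∑ k ∈ I, T k W) := by
  classical
  induction I using Finset.induction_on with
  | empty => simpa using Tens.zero
  | insert a s ha ih =>
    simp only [Finset.sum_insert ha]
    exact (h a (by simp)).add (ih fun k hk => h k (by simp [hk]))

theorem Tens.mul {T T' : ∀ W : J, L2H S (H W) →L[ℂ] L2H S (H W)} (h : Tens D T)
    (h' : Tens D T') : Tens D (fun W => T W * T' W) := by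
  classical
  obtain ⟨ι, _, d, b, C, hC, hd, hf, hb, hT⟩ := h
  obtain ⟨ι', _, d', b', C', hC', hd', hf', hb', hT'⟩ := h'
  refine ⟨ι × ι', inferInstance, fun p => d p.1 * d' p.2, fun p W => b p.1 W * b' p.2 W, C * C',
    by positivity, ?_, ?_, ?_, ?_⟩
  · intro p; exact D.mul_mem (hd _) (hd' _)
  · intro p; exact coef_mul_finite _ _ (hf _) (hf' _)
  · intro p W
    exact (norm_mul_le _ _).trans (mul_le_mul (hb _ _) (hb' _ _) (norm_nonneg _) hC)
  · intro W s u
    have hQfin : (⋃ j : ι', {t | coef (d' j) t u ≠ 0}).Finite :=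
      Set.finite_iUnion fun j => hf' j u
    have hQ : ∀ t ∉ hQfin.toFinset, ∀ j, coef (d' j) t u = 0 := by
      intro t ht j
      by_contra hne
      exact ht (by simp only [Set.Finite.mem_toFinset, Set.mem_iUnion]; exact ⟨j, hne⟩)
    rw [blk_mul (T W) (T' W) s u hQfin.toFinset (fun t ht => by
      rw [hT']; exact Finset.sum_eq_zero fun j _ => by rw [hQ t ht j, zero_smul])]
    rw [Fintype.sum_prod_type]
    have e1 : ∀ i j, coef (d i * d' j) s u
        = ∑ t ∈ hQfin.toFinset, coef (d i) s t * coef (d' j) t u := fun i j =>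
      coef_mul (d i) (d' j) s u _ (fun t ht => hQ t ht j)
    simp only [e1, Finset.sum_smul]
    have e2 : ∀ t, blk (T W) s t * blk (T' W) t u
        = ∑ i, ∑ j, (coef (d i) s t * coef (d' j) t u) • (b i W * b' j W) := by
      intro t
      rw [hT, hT', Finset.sum_mul_sum]
      refine Finset.sum_congr rfl fun i _ => Finset.sum_congr rfl fun j _ => ?_
      rw [smul_mul_smul_comm]
    simp only [e2]
    rw [Finset.sum_comm]
    refine Finset.sum_congr rfl fun i _ => ?_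
    rw [Finset.sum_comm]

theorem Tens.pow {T : ∀ W : J, L2H S (H W) →L[ℂ] L2H S (H W)} (h : Tens D T) (k : ℕ) :
    Tens D (fun W => T W ^ (k + 1)) := by
  induction k with
  | zero => simpa using h
  | succ k ih =>
    have := ih.mul h
    simpa [pow_succ] using this

theorem Tens.aeval {T : ∀ W : J, L2H S (H W) →L[ℂ] L2H S (H W)} (h : Tens D T)
    (p : Polynomial ℝ) (hp : p.coeff 0 = 0) : Tens D (fun W => Polynomial.aeval (T W) p) := by
  have e : (fun W => Polynomial.aeval (T W) p) = fun W => ∑ k ∈ Finset.range (p.natDegree + 1),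
      (fun W => ((p.coeff k : ℝ) : ℂ) • T W ^ k) W := by
    funext W
    rw [Polynomial.aeval_eq_sum_range]
    refine Finset.sum_congr rfl fun k _ => ?_
    exact (Complex.coe_smul (p.coeff k) (T W ^ k)).symm
  rw [e]
  refine Tens.sum _ (fun k W => ((p.coeff k : ℝ) : ℂ) • T W ^ k) fun k _ => ?_
  rcases Nat.eq_zero_or_pos k with rfl | hk
  · simpa [hp] using Tens.zero
  · obtain ⟨k, rfl⟩ := Nat.exists_eq_succ_of_ne_zero hk.ne'
    exact (h.pow k).smul _

omit [∀ W, CompleteSpace (H W)] in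
/-- conversion to the form used in `exact_consequence` -/
theorem Tens.toFin {T : ∀ W : J, L2H S (H W) →L[ℂ] L2H S (H W)} (h : Tens D T) :
    ∃ (r : ℕ) (d : Fin r → (L2 S →L[ℂ] L2 S)) (b : Fin r → ∀ W, H W →L[ℂ] H W) (C : ℝ),
      (∀ i, d i ∈ D) ∧ (∀ i W, ‖b i W‖ ≤ C) ∧
      ∀ W s t, blk (T W) s t = ∑ i, coef (d i) s t • b i W := by
  obtain ⟨ι, _, d, b, C, hC, hd, hf, hb, hT⟩ := h
  let e := Fintype.equivFin ι
  refine ⟨Fintype.card ι, fun i => d (e.symm i), fun i => b (e.symm i), C, fun i => hd _,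
    fun i W => hb _ _, fun W s t => ?_⟩
  rw [hT]
  exact (e.symm.sum_comp (fun i => coef (d i) s t • b i W)).symm

end TensSec

section Neighbours
variable {S : Type u} {ι : Type*} [Fintype ι] (a : ι → S → S → ℂ)
    (hc : ∀ i t, {s | a i s t ≠ 0}.Finite ∧ {s | a i t s ≠ 0}.Finite)

open Classical in
/-- the set of neighbours of a finite set -/
noncomputable def nb (Q : Finset S) : Finset S :=
  Q ∪ Q.biUnion fun u => Finset.univ.biUnion fun i => (hc i u).1.toFinset ∪ (hc i u).2.toFinset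

theorem subset_nb (Q : Finset S) : Q ⊆ nb a hc Q := by
  classical
  intro x hx; simp [nb, hx]

theorem nb_spec (Q : Finset S) (u : S) (hu : u ∈ Q) (s : S) (hs : s ∉ nb a hc Q) (i : ι) :
    a i s u = 0 ∧ a i u s = 0 := by
  classical
  simp only [nb, Finset.mem_union, Finset.mem_biUnion, not_or, not_exists, not_and,
    Set.Finite.mem_toFinset, Finset.mem_univ, true_and, Set.mem_ofPred_eq, not_not] at hs
  have := hs.2 u hu i
  tauto

/-- iterated neighbourhoods -/
noncomputable def nbs (t : S) : ℕ → Finset S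
  | 0 => {t}
  | k + 1 => nb a hc (nbs t k)

theorem nbs_mono (t : S) : Monotone (nbs a hc t) :=
  monotone_nat_of_le_succ fun _ => subset_nb a hc _

end Neighbours

end EX

section EXMain
variable {X : Type u} [Groupoid.{u} X] [TopologicalSpace X] [TopologicalSpace (Arr X)]

namespace EX

theorem exists_X [EtaleGroupoid X] (n : ℕ) (f : Fin n → Arr X → ℂ) (hf : ∀ i, IsCc (f i))
    (C : ℝ) : ∃ R : ℝ, 0 ≤ R ∧ ∀ (H : Type u) [NormedAddCommGroup H] [InnerProductSpace ℂ H]
      [CompleteSpace H] (b : Fin n → (H →L[ℂ] H)), (∀ i, ‖b i‖ ≤ C) →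
      ∃ T : L2H (Arr X) H →L[ℂ] L2H (Arr X) H,
        (∀ s t, blk T s t = ∑ i, regMat (f i) s t • b i) ∧ ‖T‖ ≤ R := by
  choose Cf hCf using fun i => exists_regOp_tensor (f i) (hf i)
  refine ⟨∑ i, |Cf i| * |C|, Finset.sum_nonneg fun i _ => by positivity, ?_⟩
  intro H _ _ _ b hb
  choose T hT hTn using fun i => hCf i H (b i)
  refine ⟨∑ i, T i, fun s t => ?_, ?_⟩
  · rw [blk_sum]
    exact Finset.sum_congr rfl fun i _ => hT i s t
  · refine (norm_sum_le _ _).trans (Finset.sum_le_sum fun i _ => (hTn i).trans ?_)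
    refine mul_le_mul (le_abs_self _) ((hb i).trans (le_abs_self _)) (norm_nonneg _) (abs_nonneg _)

theorem tens_X [EtaleGroupoid X] (n : ℕ) (f : Fin n → Arr X → ℂ) (hf : ∀ i, IsCc (f i))
    (C : ℝ) (hC : 0 ≤ C) {J : Type u} (H : J → Type u) [∀ W, NormedAddCommGroup (H W)]
    [∀ W, InnerProductSpace ℂ (H W)] [∀ W, CompleteSpace (H W)]
    (b : ∀ W, Fin n → (H W →L[ℂ] H W)) (hb : ∀ W i, ‖b W i‖ ≤ C)
    (T : ∀ W, L2H (Arr X) (H W) →L[ℂ] L2H (Arr X) (H W))
    (hT : ∀ W s t, blk (T W) s t = ∑ i, regMat (f i) s t • b W i) :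
    Tens (redAlg X) T ∧ Tens (redAlg X) (fun W => star (T W)) := by
  choose d hdD hd using fun i => exists_regOp (f i) (hf i)
  constructor
  · refine ⟨Fin n, inferInstance, d, fun i W => b W i, C, hC, hdD, ?_, fun i W => hb W i, ?_⟩
    · intro i t
      simp only [hd]
      exact (regMat_finite (f i) (hf i) t).1
    · intro W s t
      simp only [hd, hT]
  · refine ⟨Fin n, inferInstance, fun i => star (d i), fun i W => star (b W i), C, hC,
      fun i => star_mem (hdD i), ?_, fun i W => by rw [norm_star]; exact hb W i, ?_⟩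
    · intro i t
      simp only [coef_star, hd, star_ne_zero]
      exact (regMat_finite (f i) (hf i) t).2
    · intro W s t
      rw [blk_star, hT, star_sum]
      refine Finset.sum_congr rfl fun i _ => ?_
      rw [star_smul, coef_star, hd]

end EX

theorem EX.exists_fc {A : Type*} [CStarAlgebra A] (T : A) (hT : IsSelfAdjoint T) (φ : ℝ → ℝ)
    (hφ : Continuous φ) (K : Set ℝ) (hK : spectrum ℝ T ⊆ K) :
    ∃ Y : A, ∀ (p : Polynomial ℝ) (ε : ℝ), 0 ≤ ε → (∀ x ∈ K, |φ x - p.eval x| ≤ ε) →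
      ‖Y - Polynomial.aeval T p‖ ≤ ε :=
  ⟨cfc φ T, fun p ε hε h => EX.cfc_sub_aeval_le T hT φ hφ p ε hε K hK h⟩

open EX in
theorem exPrime_of_exact [EtaleGroupoid X]
    (h : IsExactAlg (redAlg X : Set (L2 (Arr X) →L[ℂ] L2 (Arr X)))) : ExPrime X := by
  classical
  intro n f hf ρ₁ ρ₂ C hρ₁ hρ₁₂
  by_contra hcon
  push Not at hcon
  choose H i1 i2 i3 b hb hW V hV using hcon
  obtain ⟨R₀, hR₀, hX⟩ := exists_X n f hf C
  choose Xo hXb hXn using fun W => @hX (H W) (i1 W) (i2 W) (i3 W) (b W) (hb W)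
  have hC' : ∀ W i, ‖b W i‖ ≤ |C| := fun W i => (hb W i).trans (le_abs_self _)
  obtain ⟨hT1, hT2⟩ := tens_X n f hf |C| (abs_nonneg _) H b hC' Xo hXb
  have hTT : Tens (redAlg X) (fun W => star (Xo W) * Xo W) := hT2.mul hT1
  -- the function
  set φ : ℝ → ℝ := fun t => max (t - ρ₁ ^ 2) 0 with hφdef
  have hφ : Continuous φ := by fun_prop
  have hφ0 : φ 0 = 0 := by
    simp only [hφdef, zero_sub]
    exact max_eq_right (by nlinarith [sq_nonneg ρ₁])
  set R : ℝ := max (R₀ ^ 2) (ρ₁ ^ 2) with hRdef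
  have hR : 0 ≤ R := le_max_of_le_left (by positivity)
  have hspec : ∀ W, spectrum ℝ (star (Xo W) * Xo W) ⊆ Set.Icc 0 R := fun W =>
    spec_subset (Xo W) R (le_max_of_le_left (by have := norm_nonneg (Xo W); gcongr; exact hXn W))
  choose Y hY using fun W => EX.exists_fc (star (Xo W) * Xo W) (IsSelfAdjoint.star_mul_self _) φ
    hφ _ (hspec W)
  set m : ∀ W, Arr X → Arr X → (H W →L[ℂ] H W) := fun W s t => blk (Y W) s t with hm
  have key := exact_consequence (redAlg X : Set (L2 (Arr X) →L[ℂ] L2 (Arr X))) h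
    (fun W => H W →L[ℂ] H W) m ?_ ?_
  · -- conclusion
    obtain ⟨W, hWk⟩ := key ((ρ₂ ^ 2 - ρ₁ ^ 2) / 2) (by nlinarith only [hρ₁, hρ₁₂])
    have h1 := hWk W (Finset.Subset.refl _)
    have h2 : ‖Y W‖ ≤ (ρ₂ ^ 2 - ρ₁ ^ 2) / 2 :=
      norm_le_of_matNorm_blk _ _ (by nlinarith) h1
    have h3 : ‖Y W - star (Xo W) * Xo W‖ ≤ ρ₁ ^ 2 := by
      have e := hY W Polynomial.X (ρ₁ ^ 2) (by positivity) ?_
      · rwa [Polynomial.aeval_X] at e
      intro x hx
      have hx0 := hx.1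
      simp only [hφdef, Polynomial.eval_X]
      rcases le_total (x - ρ₁ ^ 2) 0 with hle | hle
      · rw [max_eq_right hle, zero_sub, abs_neg, abs_of_nonneg hx0]; linarith
      · rw [max_eq_left hle]
        have : x - ρ₁ ^ 2 - x = -(ρ₁ ^ 2) := by ring
        rw [this, abs_neg, abs_of_nonneg (by positivity)]
    have h4 : ‖star (Xo W) * Xo W‖ = ‖Xo W‖ * ‖Xo W‖ := CStarRing.norm_star_mul_self
    have h5 : ‖star (Xo W) * Xo W‖ ≤ ‖Y W‖ + ‖Y W - star (Xo W) * Xo W‖ := by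
      have h50 := norm_sub_le (Y W) (Y W - star (Xo W) * Xo W)
      rwa [sub_sub_cancel] at h50
    have h6 : ‖Xo W‖ ≤ ρ₂ := by
      by_contra hlt
      push Not at hlt
      nlinarith only [i3, h2, h3, h4, h5, hρ₁, hρ₁₂, hlt]
    have h7 := (matNorm_blk_le (Xo W) (V W)).trans h6
    simp only [hXb] at h7
    exact absurd (hV W) (not_lt.mpr h7)
  · -- the matrices lie in the tensor product
    intro ε hε
    obtain ⟨p, hp0, hp⟩ := exists_poly R hR φ hφ hφ0 ε hε
    obtain ⟨r, d, b', C', hd, hb', hbl⟩ := (hTT.aeval p hp0).toFin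
    refine ⟨r, d, b', C', hd, hb', fun W F => ?_⟩
    have e1 := hY W p ε hε.le hp
    have e2 := (matNorm_blk_le (Y W
      - Polynomial.aeval (star (Xo W) * Xo W) p) F).trans e1
    simp only [blk_sub, hbl] at e2
    exact e2
  · -- the entries tend to zero
    intro s t
    rw [Metric.tendsto_atTop]
    intro ε hε
    obtain ⟨p, hp0, hp⟩ := exists_poly R hR φ hφ hφ0 (ε / 3) (by positivity)
    have hc : ∀ (i : Fin n) (t : Arr X), {s | regMat (f i) s t ≠ 0}.Finite ∧
      {s | regMat (f i) t s ≠ 0}.Finite := fun i t => regMat_finite (f i) (hf i) t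
    set N := nbs (fun i => regMat (f i)) hc t with hN
    refine ⟨N (2 * p.natDegree), fun W hW' => ?_⟩
    rw [Real.dist_eq, sub_zero, abs_norm]
    obtain ⟨Z, hZ1, hZ2, hZ3⟩ := exists_op_of_matrix (N (2 * p.natDegree))
      (fun s t => ∑ i, regMat (f i) s t • b W i)
    have hZn : ‖Z‖ ≤ ρ₁ := by
      rw [hZ3]
      refine le_trans ?_ (hW W)
      exact matNorm_submatrix_le (fun x : N (2 * p.natDegree) => (⟨x.1, hW' x.2⟩ : W))
        (fun x y hxy => Subtype.ext (by simpa using congrArg Subtype.val hxy))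
        (fun s t : W => ∑ i, regMat (f i) s t • b W i)
    have hXs : ∀ s u, blk (star (Xo W)) s u = ∑ i, star (regMat (f i) u s) • star (b W i) := by
      intro s u
      rw [blk_star, hXb, star_sum]
      exact Finset.sum_congr rfl fun i _ => star_smul _ _
    have hN1 : ∀ k, ∀ u ∈ N k, ∀ s ∉ N (k + 1), blk (Xo W) s u = 0 := by
      intro k u hu s hs
      rw [hXb]
      refine Finset.sum_eq_zero fun i _ => ?_
      rw [(nb_spec (fun i => regMat (f i)) hc (N k) u hu s hs i).1, zero_smul]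
    have hN2 : ∀ k, ∀ u ∈ N k, ∀ s ∉ N (k + 1), blk (star (Xo W)) s u = 0 := by
      intro k u hu s hs
      rw [hXs]
      refine Finset.sum_eq_zero fun i _ => ?_
      rw [(nb_spec (fun i => regMat (f i)) hc (N k) u hu s hs i).2, star_zero, zero_smul]
    have hmono : Monotone N := nbs_mono _ hc t
    have hZX : ∀ k < 2 * p.natDegree, ∀ u ∈ N k, ∀ s, blk Z s u = blk (Xo W) s u := by
      intro k hk u hu s
      have hu' : u ∈ N (2 * p.natDegree) := hmono hk.le hu
      by_cases hs : s ∈ N (2 * p.natDegree)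
      · rw [hXb]; exact hZ1 ⟨s, hs⟩ ⟨u, hu'⟩
      · rw [hZ2 s u (Or.inl hs), hN1 k u hu s (fun h' => hs (hmono (by omega) h'))]
    have hZX' : ∀ k < 2 * p.natDegree, ∀ u ∈ N k, ∀ s,
        blk (star Z) s u = blk (star (Xo W)) s u := by
      intro k hk u hu s
      have hu' : u ∈ N (2 * p.natDegree) := hmono hk.le hu
      by_cases hs : s ∈ N (2 * p.natDegree)
      · rw [blk_star, blk_star, hXb, hZ1 ⟨u, hu'⟩ ⟨s, hs⟩]
      · rw [hN2 k u hu s (fun h' => hs (hmono (by omega) h')), blk_star,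
          hZ2 u s (Or.inr hs), star_zero]
    have hloc := norm_blk_aeval_le (Xo W) Z t N p (by simp [hN, nbs]) hN1 hN2 hZX hZX' ρ₁ hZn
      (ε / 3) (by positivity) (fun x hx => by
        have hxR : x ∈ Set.Icc 0 R := ⟨hx.1, hx.2.trans (le_max_right _ _)⟩
        have h1 := hp x hxR
        have h2 : φ x = 0 := max_eq_right (by linarith [hx.2])
        rw [h2, zero_sub, abs_neg] at h1
        exact h1) s
    have e1 := hY W p (ε / 3) (by positivity) hp
    have e2 := (norm_blk_le (Y W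
      - Polynomial.aeval (star (Xo W) * Xo W) p) s t).trans e1
    rw [blk_sub] at e2
    have e3 : ‖m W s t‖ ≤ ‖blk (Y W) s t
        - blk (Polynomial.aeval (star (Xo W) * Xo W) p) s t‖
        + ‖blk (Polynomial.aeval (star (Xo W) * Xo W) p) s t‖ := by
      have e30 := norm_add_le (blk (Y W) s t
        - blk (Polynomial.aeval (star (Xo W) * Xo W) p) s t)
        (blk (Polynomial.aeval (star (Xo W) * Xo W) p) s t)
      rwa [sub_add_cancel] at e30
    linarith

end EXMain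

end Pool.Agent.KW
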